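import Pool.Agent.J4H6.GS5.Mean

/-!
# Project GS6 (helper38): mean values on vertical lines, with a possible pole at `1` (helper6)
-/

set_option autoImplicit false

open MeasureTheory Set Filter Topology
open scoped ENNReal Real

namespace Pool.Agent.J4H6.GS6

open Pool.Agent.J4H6.GS5

noncomputable section

theorem ofReal_int_le (f : ℝ → ℂ) {a b : ℝ} (hab : a ≤ b) :
    ENNReal.ofReal (∫ t in a..b, ‖f t‖ ^ 2) ≤ ∫⁻ t in Icc a b, ‖f t‖ₑ ^ 2 := by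
  rw [intervalIntegral.integral_of_le hab]
  by_cases hi : Integrable (fun t => ‖f t‖ ^ 2) (volume.restrict (Ioc a b))
  · rw [ofReal_integral_eq_lintegral_ofReal hi (ae_of_all _ fun t => by positivity)]
    refine (lintegral_mono_set Ioc_subset_Icc_self).trans (le_of_eq ?_)
    refine lintegral_congr fun t => ?_
    rw [ENNReal.ofReal_pow (norm_nonneg _), ofReal_norm]
  · rw [integral_undef hi]
    simp

/-- the line against the window -/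
theorem line_win {h g : ℂ → ℂ} (hg : Differentiable ℂ g) (J : ℕ)
    (hgh : ∀ w : ℂ, w ≠ 1 → g w = (w - 1) ^ J * h w) (x₀ x₁ r : ℝ) (hr : 0 < r) (hx : x₀ ≤ x₁)
    (h0 : 1 / 2 < x₀ - r) (h1 : x₁ + r < 1) (j : ℕ) (Y : ℝ) (hY : 2 * (Y + 1) ≤ 2 ^ j) (b : ℂ)
    (hb0 : x₀ ≤ b.re) (hb1 : b.re ≤ x₁) (hbY : |b.im| ≤ Y) :
    ENNReal.ofReal (π * r ^ 2) *
        ENNReal.ofReal (∫ t in ((2 : ℝ) ^ j)..(2 ^ (j + 1)), ‖h (b + t * Complex.I)‖ ^ 2) ≤
      ENNReal.ofReal (2 * r * 100 ^ J) *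
        ∫⁻ p : ℝ × ℝ in Icc (x₀ - r) (x₁ + r) ×ˢ Icc ((2 : ℝ) ^ j / 2) (4 * 2 ^ j),
          ‖h (p.1 + p.2 * Complex.I)‖ₑ ^ 2 := by
  have hP : (0 : ℝ) < 2 ^ j := by positivity
  set P : ℝ := 2 ^ j with hPd
  have hP1 : (1 : ℝ) ≤ P := one_le_pow₀ (by norm_num)
  have hPP : (2 : ℝ) ^ (j + 1) = 2 * P := by rw [hPd]; ring
  rw [hPP]
  have hYY := abs_le.mp hbY
  have hr1 : r < 1 / 2 := by linarith
  -- on the line
  have hline : ∀ t ∈ Icc P (2 * P), ‖h (b + t * Complex.I)‖ₑ ^ 2 ≤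
      ENNReal.ofReal (((P / 2) ^ J)⁻¹ ^ 2) * ‖g (b.re + (b.im + t) * Complex.I)‖ₑ ^ 2 := by
    intro t ht
    have e : (b.re : ℂ) + (b.im + t) * Complex.I = b + t * Complex.I := by
      conv_rhs => rw [← Complex.re_add_im b]
      ring
    rw [e]
    set w : ℂ := b + t * Complex.I with hw
    have him : w.im = b.im + t := by rw [hw]; simp
    have hre : w.re = b.re := by rw [hw]; simp
    have hne : w ≠ 1 := by
      intro h3
      rw [h3] at hre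
      simp at hre
      linarith
    have h4 : P / 2 ≤ ‖w - 1‖ := by
      have h5 := Complex.abs_im_le_norm (w - 1)
      have h6 : (w - 1).im = b.im + t := by rw [Complex.sub_im, him]; simp
      rw [h6] at h5
      have h7 := le_abs_self (b.im + t)
      linarith [ht.1]
    have h8 : ‖h w‖ ≤ ((P / 2) ^ J)⁻¹ * ‖g w‖ := by
      rw [hgh w hne, norm_mul, norm_pow]
      have h9 : (P / 2) ^ J ≤ ‖w - 1‖ ^ J := pow_le_pow_left₀ (by positivity) h4 J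
      have h10 : 0 < (P / 2) ^ J := by positivity
      calc ‖h w‖ = ((P / 2) ^ J)⁻¹ * ((P / 2) ^ J * ‖h w‖) := by field_simp
        _ ≤ ((P / 2) ^ J)⁻¹ * (‖w - 1‖ ^ J * ‖h w‖) := by gcongr
    have h11 : ‖h w‖ ^ 2 ≤ ((P / 2) ^ J)⁻¹ ^ 2 * ‖g w‖ ^ 2 := by
      rw [← mul_pow]
      exact pow_le_pow_left₀ (norm_nonneg _) h8 2
    have h12 := ENNReal.ofReal_le_ofReal h11
    rw [ENNReal.ofReal_mul (by positivity), ENNReal.ofReal_pow (norm_nonneg _),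
      ENNReal.ofReal_pow (norm_nonneg _), ofReal_norm, ofReal_norm] at h12
    exact h12
  -- in the window
  have hwin : ∀ p ∈ Icc (x₀ - r) (x₁ + r) ×ˢ Icc (P / 2) (4 * P),
      ‖g ((p : ℝ × ℝ).1 + p.2 * Complex.I)‖ₑ ^ 2 ≤
        ENNReal.ofReal (((5 * P) ^ J) ^ 2) * ‖h (p.1 + p.2 * Complex.I)‖ₑ ^ 2 := by
    intro p hp
    obtain ⟨hp1, hp2⟩ := hp
    set w : ℂ := (p.1 : ℂ) + p.2 * Complex.I with hw
    have him : w.im = p.2 := by rw [hw]; simp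
    have hre : w.re = p.1 := by rw [hw]; simp
    have hne : w ≠ 1 := by
      intro h3
      rw [h3] at hre
      simp at hre
      linarith [hp1.2]
    have h4 : ‖w - 1‖ ≤ 5 * P := by
      have h5 := Complex.norm_le_abs_re_add_abs_im (w - 1)
      have h6 : (w - 1).im = p.2 := by rw [Complex.sub_im, him]; simp
      have h7 : (w - 1).re = p.1 - 1 := by rw [Complex.sub_re, hre]; simp
      rw [h6, h7] at h5
      have h8 : |p.1 - 1| ≤ 1 := by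
        rw [abs_le]
        constructor <;> linarith [hp1.1, hp1.2]
      have h9 : |p.2| ≤ 4 * P := by
        rw [abs_le]
        constructor <;> linarith [hp2.1, hp2.2]
      linarith
    have h8 : ‖g w‖ ≤ (5 * P) ^ J * ‖h w‖ := by
      rw [hgh w hne, norm_mul, norm_pow]
      have h9 : ‖w - 1‖ ^ J ≤ (5 * P) ^ J := pow_le_pow_left₀ (norm_nonneg _) h4 J
      gcongr
    have h11 : ‖g w‖ ^ 2 ≤ ((5 * P) ^ J) ^ 2 * ‖h w‖ ^ 2 := by
      rw [← mul_pow]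
      exact pow_le_pow_left₀ (norm_nonneg _) h8 2
    have h12 := ENNReal.ofReal_le_ofReal h11
    rw [ENNReal.ofReal_mul (by positivity), ENNReal.ofReal_pow (norm_nonneg _),
      ENNReal.ofReal_pow (norm_nonneg _), ofReal_norm, ofReal_norm] at h12
    exact h12
  have hgm : Measurable (fun p : ℝ × ℝ => ‖g (p.1 + p.2 * Complex.I)‖ₑ ^ 2) := by
    have := hg.continuous
    have h2 : Continuous (fun p : ℝ × ℝ => g (p.1 + p.2 * Complex.I)) := by fun_prop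
    exact h2.measurable.enorm.pow_const 2
  set W : Set (ℝ × ℝ) := Icc (x₀ - r) (x₁ + r) ×ˢ Icc (P / 2) (4 * P) with hW
  have hWm : MeasurableSet W := measurableSet_Icc.prod measurableSet_Icc
  have hmain := line_le hg b.re b.im P (2 * P) hr
  have hbox : ∫⁻ u in Icc (b.re - r) (b.re + r), ∫⁻ v in Icc (P + b.im - r) (2 * P + b.im + r),
      ‖g (u + v * Complex.I)‖ₑ ^ 2 ≤ ∫⁻ p in W, ‖g ((p : ℝ × ℝ).1 + p.2 * Complex.I)‖ₑ ^ 2 := by
    have e1 : ∫⁻ p in W, ‖g ((p : ℝ × ℝ).1 + p.2 * Complex.I)‖ₑ ^ 2 =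
        ∫⁻ u in Icc (x₀ - r) (x₁ + r), ∫⁻ v in Icc (P / 2) (4 * P), ‖g (u + v * Complex.I)‖ₑ ^ 2 := by
      rw [hW, Measure.volume_eq_prod, ← Measure.prod_restrict, lintegral_prod _ hgm.aemeasurable]
    rw [e1]
    have s1 : Icc (b.re - r) (b.re + r) ⊆ Icc (x₀ - r) (x₁ + r) :=
      Icc_subset_Icc (by linarith) (by linarith)
    have s2 : Icc (P + b.im - r) (2 * P + b.im + r) ⊆ Icc (P / 2) (4 * P) :=
      Icc_subset_Icc (by linarith) (by linarith)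
    refine (lintegral_mono_set s1).trans ?_
    refine lintegral_mono fun u => ?_
    exact lintegral_mono_set s2
  have hc1 : (ENNReal.ofReal (((P / 2) ^ J)⁻¹ ^ 2)) ≠ ⊤ := ENNReal.ofReal_ne_top
  have hc2 : (ENNReal.ofReal (((5 * P) ^ J) ^ 2)) ≠ ⊤ := ENNReal.ofReal_ne_top
  calc ENNReal.ofReal (π * r ^ 2) *
        ENNReal.ofReal (∫ t in P..(2 * P), ‖h (b + t * Complex.I)‖ ^ 2)
      ≤ ENNReal.ofReal (π * r ^ 2) * ∫⁻ t in Icc P (2 * P), ‖h (b + t * Complex.I)‖ₑ ^ 2 := by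
        gcongr
        exact ofReal_int_le (fun t : ℝ => h (b + t * Complex.I)) (by linarith)
    _ ≤ ENNReal.ofReal (π * r ^ 2) * (ENNReal.ofReal (((P / 2) ^ J)⁻¹ ^ 2) *
          ∫⁻ t in Icc P (2 * P), ‖g (b.re + (b.im + t) * Complex.I)‖ₑ ^ 2) := by
        rw [← lintegral_const_mul' _ _ hc1]
        refine mul_le_mul_right ?_ _
        exact setLIntegral_mono' measurableSet_Icc hline
    _ = ENNReal.ofReal (((P / 2) ^ J)⁻¹ ^ 2) * (ENNReal.ofReal (π * r ^ 2) *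
          ∫⁻ t in Icc P (2 * P), ‖g (b.re + (b.im + t) * Complex.I)‖ₑ ^ 2) := by ring
    _ ≤ ENNReal.ofReal (((P / 2) ^ J)⁻¹ ^ 2) * (ENNReal.ofReal (2 * r) *
          (ENNReal.ofReal (((5 * P) ^ J) ^ 2) * ∫⁻ p in W, ‖h ((p : ℝ × ℝ).1 + p.2 * Complex.I)‖ₑ ^ 2)) := by
        refine mul_le_mul_right (hmain.trans (mul_le_mul_right (hbox.trans ?_) _)) _
        rw [← lintegral_const_mul' _ _ hc2]
        exact setLIntegral_mono' hWm hwin
    _ = ENNReal.ofReal (2 * r * 100 ^ J) * ∫⁻ p in W, ‖h ((p : ℝ × ℝ).1 + p.2 * Complex.I)‖ₑ ^ 2 := by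
        rw [← mul_assoc, ← mul_assoc, ← ENNReal.ofReal_mul (by positivity),
          ← ENNReal.ofReal_mul (by positivity)]
        congr 2
        have h5 : (100 : ℝ) ^ J = (10 ^ J) ^ 2 := by
          rw [← pow_mul, mul_comm, pow_mul]; norm_num
        have h6 : (5 * P) ^ J = 10 ^ J * (P / 2) ^ J := by rw [← mul_pow]; congr 1; ring
        have h7 : (P / 2) ^ J ≠ 0 := by positivity
        rw [h5, h6]
        field_simp

/-- the finitely many small windows -/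
theorem small {h g : ℂ → ℂ} (hg : Differentiable ℂ g) (J : ℕ)
    (hgh : ∀ w : ℂ, w ≠ 1 → g w = (w - 1) ^ J * h w) (x₀ x₁ Y : ℝ) (h1 : x₁ < 1) (j : ℕ) :
    ∃ M : ℝ, 0 ≤ M ∧ ∀ b : ℂ, x₀ ≤ b.re → b.re ≤ x₁ → |b.im| ≤ Y →
      ∫ t in ((2 : ℝ) ^ j)..(2 ^ (j + 1)), ‖h (b + t * Complex.I)‖ ^ 2 ≤ M := by
  have hK : IsCompact (Icc x₀ x₁ ×ℂ Icc (-(Y + 2 ^ (j + 1))) (Y + 2 ^ (j + 1))) :=
    isCompact_Icc.reProdIm isCompact_Icc
  obtain ⟨B, hB⟩ := hK.exists_bound_of_continuousOn hg.continuous.continuousOn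
  have hB0 : 0 ≤ max B 0 := le_max_right _ _
  have hd : 0 < 1 - x₁ := by linarith
  refine ⟨(((1 - x₁) ^ J)⁻¹ * max B 0) ^ 2 * |(2 : ℝ) ^ (j + 1) - 2 ^ j|, by positivity,
    fun b hb0 hb1 hbY => ?_⟩
  have hYY := abs_le.mp hbY
  refine (le_abs_self _).trans ?_
  rw [← Real.norm_eq_abs]
  refine intervalIntegral.norm_integral_le_of_norm_le_const fun t ht => ?_
  rw [uIoc_of_le (pow_le_pow_right₀ (by norm_num) (Nat.le_succ j))] at ht
  have ht0 : (0 : ℝ) < 2 ^ j := by positivity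
  set w : ℂ := b + t * Complex.I with hw
  have him : w.im = b.im + t := by rw [hw]; simp
  have hre : w.re = b.re := by rw [hw]; simp
  have hmem : w ∈ Icc x₀ x₁ ×ℂ Icc (-(Y + 2 ^ (j + 1))) (Y + 2 ^ (j + 1)) := by
    rw [Complex.mem_reProdIm, him, hre]
    refine ⟨⟨hb0, hb1⟩, ?_, ?_⟩
    · have : (0 : ℝ) < 2 ^ (j + 1) := by positivity
      linarith [ht.1]
    · have ht2 : t ≤ 2 ^ (j + 1) := ht.2
      linarith
  have hne : w ≠ 1 := by
    intro h3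
    rw [h3] at hre
    simp at hre
    linarith
  have h4 : 1 - x₁ ≤ ‖w - 1‖ := by
    have h5 := Complex.abs_re_le_norm (w - 1)
    have h7 : (w - 1).re = b.re - 1 := by rw [Complex.sub_re, hre]; simp
    rw [h7] at h5
    have h8 := neg_abs_le (b.re - 1)
    linarith
  have h8 : ‖h w‖ ≤ ((1 - x₁) ^ J)⁻¹ * max B 0 := by
    have h9 : (1 - x₁) ^ J ≤ ‖w - 1‖ ^ J := pow_le_pow_left₀ hd.le h4 J
    have h10 : 0 < (1 - x₁) ^ J := by positivity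
    have h11 : ‖g w‖ ≤ max B 0 := (hB w hmem).trans (le_max_left _ _)
    rw [hgh w hne, norm_mul, norm_pow] at h11
    calc ‖h w‖ = ((1 - x₁) ^ J)⁻¹ * ((1 - x₁) ^ J * ‖h w‖) := by field_simp
      _ ≤ ((1 - x₁) ^ J)⁻¹ * (‖w - 1‖ ^ J * ‖h w‖) := by gcongr
      _ ≤ ((1 - x₁) ^ J)⁻¹ * max B 0 := by gcongr
  rw [Real.norm_eq_abs, abs_of_nonneg (by positivity)]
  exact pow_le_pow_left₀ (norm_nonneg _) h8 2

/-- the mean value over almost every element of a family -/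
theorem ae_lines2 {Ω : Type} [MeasurableSpace Ω] (μ : Measure Ω) [SFinite μ] (h : ℕ → Ω → ℂ → ℂ)
    (J : ℕ) (x₀ x₁ c ε r K : ℝ) (hx₀ : 1 / 2 < x₀ - r) (hx : x₀ ≤ x₁) (hx₁ : x₁ + r < 1)
    (hr : 0 < r) (hε : 0 < ε) (hK : 0 ≤ K)
    (hd : ∀ᵐ ω ∂μ, ∀ j, ∃ g : ℂ → ℂ, Differentiable ℂ g ∧ ∀ w : ℂ, w ≠ 1 →
      g w = (w - 1) ^ J * h j ω w)
    (hm : ∀ j, AEMeasurable (fun p : Ω × (ℝ × ℝ) => ‖h j p.1 (p.2.1 + p.2.2 * Complex.I)‖ₑ ^ 2)
      (μ.prod (volume.restrict {p : ℝ × ℝ | 1 / 2 < p.1})))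
    (hb : ∀ j : ℕ, ∫⁻ p : ℝ × ℝ in Icc (x₀ - r) (x₁ + r) ×ˢ Icc ((2 : ℝ) ^ j / 2) (4 * 2 ^ j),
      ∫⁻ ω, ‖h j ω (p.1 + p.2 * Complex.I)‖ₑ ^ 2 ∂μ ≤ ENNReal.ofReal (K * (2 : ℝ) ^ (j * (1 - c)))) :
    ∀ᵐ ω ∂μ, ∀ Y : ℝ, ∃ C : ℝ, 0 ≤ C ∧ ∀ (j : ℕ) (b : ℂ), x₀ ≤ b.re → b.re ≤ x₁ → |b.im| ≤ Y →
      ∫ t in ((2 : ℝ) ^ j)..(2 ^ (j + 1)), ‖h j ω (b + t * Complex.I)‖ ^ 2 ≤
        C * (2 : ℝ) ^ (j * (1 - c + ε)) := by
  set B : ℕ → Set (ℝ × ℝ) := fun j =>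
    Icc (x₀ - r) (x₁ + r) ×ˢ Icc ((2 : ℝ) ^ j / 2) (4 * 2 ^ j) with hB
  have hBsub : ∀ j, B j ⊆ {p : ℝ × ℝ | 1 / 2 < p.1} := by
    intro j p hp
    have := hp.1.1
    show 1 / 2 < p.1
    linarith
  set I : ℕ → Ω → ℝ≥0∞ := fun j ω =>
    ∫⁻ p in B j, ‖h j ω (p.1 + p.2 * Complex.I)‖ₑ ^ 2 with hI
  have hmB : ∀ j, AEMeasurable (Function.uncurry fun (ω : Ω) (p : ℝ × ℝ) =>
      ‖h j ω (p.1 + p.2 * Complex.I)‖ₑ ^ 2) (μ.prod (volume.restrict (B j))) := by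
    intro j
    refine (hm j).mono_ac ?_
    exact Measure.AbsolutelyContinuous.prod Measure.AbsolutelyContinuous.rfl
      (Measure.absolutelyContinuous_of_le (Measure.restrict_mono (hBsub j) le_rfl))
  have hIm : ∀ j, AEMeasurable (I j) μ := fun j => (hmB j).lintegral_prod_right'
  have hIi : ∀ j : ℕ, ∫⁻ ω, I j ω ∂μ ≤ ENNReal.ofReal (K * (2 : ℝ) ^ (j * (1 - c))) := by
    intro j
    rw [hI]
    simp only
    rw [lintegral_lintegral_swap (hmB j)]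
    exact hb j
  set S : Ω → ℝ≥0∞ := fun ω =>
    ∑' j : ℕ, ENNReal.ofReal ((2 : ℝ) ^ (-((j : ℝ) * (1 - c + ε)))) * I j ω with hS
  have hSm : ∀ j : ℕ, AEMeasurable (fun ω =>
      ENNReal.ofReal ((2 : ℝ) ^ (-((j : ℝ) * (1 - c + ε)))) * I j ω) μ :=
    fun j => (hIm j).const_mul _
  have hSi : ∫⁻ ω, S ω ∂μ ≠ ⊤ := by
    rw [hS]
    simp only
    rw [lintegral_tsum (fun j => hSm j)]
    have hs : Summable (fun j : ℕ => K * ((2 : ℝ) ^ (-ε)) ^ j) := by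
      refine Summable.mul_left _ (summable_geometric_of_lt_one (by positivity) ?_)
      exact Real.rpow_lt_one_of_one_lt_of_neg (by norm_num) (by linarith)
    have hle : ∀ j : ℕ, ∫⁻ ω, ENNReal.ofReal ((2 : ℝ) ^ (-((j : ℝ) * (1 - c + ε)))) * I j ω ∂μ ≤
        ENNReal.ofReal (K * ((2 : ℝ) ^ (-ε)) ^ j) := by
      intro j
      rw [lintegral_const_mul'' _ (hIm j)]
      refine (mul_le_mul_right (hIi j) _).trans ?_
      rw [← ENNReal.ofReal_mul (by positivity)]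
      apply le_of_eq
      congr 1
      have e1 : ((2 : ℝ) ^ (-ε)) ^ j = (2 : ℝ) ^ (-ε * j) := by
        rw [Real.rpow_mul (by norm_num), Real.rpow_natCast]
      have e2 : (2 : ℝ) ^ (-ε * j) = (2 : ℝ) ^ (-(j * (1 - c + ε))) * (2 : ℝ) ^ (j * (1 - c)) := by
        rw [← Real.rpow_add (by norm_num)]
        congr 1
        ring
      rw [e1, e2]
      ring
    refine ne_top_of_le_ne_top ?_ (ENNReal.tsum_le_tsum hle)
    rw [← ENNReal.ofReal_tsum_of_nonneg (fun j => by positivity) hs]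
    exact ENNReal.ofReal_ne_top
  have hSae : ∀ᵐ ω ∂μ, S ω < ⊤ := ae_lt_top' (AEMeasurable.tsum fun j => hSm j) hSi
  filter_upwards [hd, hSae] with ω hdω hω Y
  choose g hg hgh using hdω
  choose M hM0 hM using fun j => small (hg j) J (hgh j) x₀ x₁ Y (by linarith) j
  obtain ⟨j₀, hj₀⟩ := pow_unbounded_of_one_lt (2 * (Y + 1)) (one_lt_two : (1 : ℝ) < 2)
  set κ : ℝ := 1 - c + ε with hκ
  set C₁ : ℝ := 2 * r * 100 ^ J / (π * r ^ 2) * (S ω).toReal with hC₁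
  have hC₁0 : 0 ≤ C₁ := by positivity
  set C₂ : ℝ := ∑ i ∈ Finset.range j₀, M i * (2 : ℝ) ^ (-((i : ℝ) * κ)) with hC₂
  have hC₂0 : 0 ≤ C₂ := Finset.sum_nonneg fun i _ => mul_nonneg (hM0 i) (by positivity)
  refine ⟨C₁ + C₂, by positivity, fun j b hb0 hb1 hb2 => ?_⟩
  have h2p : (0 : ℝ) < (2 : ℝ) ^ (j * κ) := by positivity
  rcases lt_or_ge j j₀ with hj | hj
  · refine (hM j b hb0 hb1 hb2).trans ?_
    have h3 : M j * (2 : ℝ) ^ (-((j : ℝ) * κ)) ≤ C₂ :=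
      Finset.single_le_sum (f := fun i : ℕ => M i * (2 : ℝ) ^ (-((i : ℝ) * κ)))
        (fun i _ => mul_nonneg (hM0 i) (by positivity)) (Finset.mem_range.mpr hj)
    have h4 : (2 : ℝ) ^ (-((j : ℝ) * κ)) * (2 : ℝ) ^ (j * κ) = 1 := by
      rw [← Real.rpow_add (by norm_num), neg_add_cancel, Real.rpow_zero]
    calc M j = M j * (2 : ℝ) ^ (-((j : ℝ) * κ)) * (2 : ℝ) ^ (j * κ) := by
          rw [mul_assoc, h4, mul_one]
      _ ≤ (C₁ + C₂) * (2 : ℝ) ^ (j * κ) := by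
          refine mul_le_mul_of_nonneg_right ?_ h2p.le
          linarith
  · have hYj : 2 * (Y + 1) ≤ (2 : ℝ) ^ j :=
      hj₀.le.trans (pow_le_pow_right₀ (by norm_num) hj)
    have hmain := line_win (hg j) J (hgh j) x₀ x₁ r hr hx hx₀ hx₁ j Y hYj b hb0 hb1 hb2
    have hIS : I j ω ≤ ENNReal.ofReal ((2 : ℝ) ^ (j * κ) * (S ω).toReal) := by
      have h1 : ENNReal.ofReal ((2 : ℝ) ^ (-((j : ℝ) * κ))) * I j ω ≤ S ω :=
        ENNReal.le_tsum j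
      have h2 : I j ω = ENNReal.ofReal ((2 : ℝ) ^ (j * κ)) *
          (ENNReal.ofReal ((2 : ℝ) ^ (-((j : ℝ) * κ))) * I j ω) := by
        rw [← mul_assoc, ← ENNReal.ofReal_mul (by positivity), ← Real.rpow_add (by norm_num),
          add_neg_cancel, Real.rpow_zero, ENNReal.ofReal_one, one_mul]
      rw [h2, ENNReal.ofReal_mul (by positivity), ENNReal.ofReal_toReal hω.ne]
      exact mul_le_mul_right h1 _
    set Q : ℝ := ∫ t in ((2 : ℝ) ^ j)..(2 ^ (j + 1)), ‖h j ω (b + t * Complex.I)‖ ^ 2 with hQ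
    have hfin : ENNReal.ofReal (π * r ^ 2 * Q) ≤
        ENNReal.ofReal (2 * r * 100 ^ J * ((2 : ℝ) ^ (j * κ) * (S ω).toReal)) := by
      rw [ENNReal.ofReal_mul (by positivity), ENNReal.ofReal_mul (p := 2 * r * 100 ^ J) (by positivity)]
      exact hmain.trans (mul_le_mul_right hIS _)
    rw [ENNReal.ofReal_le_ofReal_iff (by positivity)] at hfin
    have hpr : 0 < π * r ^ 2 := by positivity
    calc Q = π * r ^ 2 * Q / (π * r ^ 2) := by field_simp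
      _ ≤ 2 * r * 100 ^ J * ((2 : ℝ) ^ (j * κ) * (S ω).toReal) / (π * r ^ 2) := by gcongr
      _ = C₁ * (2 : ℝ) ^ (j * κ) := by rw [hC₁]; ring
      _ ≤ (C₁ + C₂) * (2 : ℝ) ^ (j * κ) := by
          refine mul_le_mul_of_nonneg_right ?_ h2p.le
          linarith

end

end Pool.Agent.J4H6.GS6
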