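import Pool.Agent.J4H38.GSX.Stm7
import Pool.Agent.J4H6.GS5.Rem
import Pool.Agent.J4H6.GS6.Lines

/-!
# Project GS6 (helper38): (REM2), by helper6
-/

set_option autoImplicit false

open MeasureTheory Set Filter Topology
open scoped ENNReal Real

namespace Pool.Agent.J4H6.GS6

open Pool.Agent.J4H38.GS Pool.Agent.J4H38.GSX Pool.Agent.J4H6.GS5

noncomputable section

theorem DZ_app (J k : ℕ) (α : Fin k → ℝ) (w : ℂ) :
    DZ (app J k α) w = riemannZeta w ^ J * DZ α w := by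
  unfold DZ app
  rw [Fin.prod_univ_add]
  simp only [Fin.append_left, Fin.append_right, QuotientAddGroup.mk_zero,
    HurwitzZeta.expZeta_zero, Finset.prod_const, Finset.card_univ, Fintype.card_fin]

theorem DN_app (J k N : ℕ) (α : Fin k → ℝ) (w : ℂ) :
    DN N (app J k α) w = SN N 0 w ^ J * DN N α w := by
  unfold DN app
  rw [Fin.prod_univ_add]
  simp only [Fin.append_left, Fin.append_right, Finset.prod_const, Finset.card_univ,
    Fintype.card_fin]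

theorem zeta_meas : Measurable riemannZeta := by
  refine measurable_of_continuousOn_compl_singleton 1 fun s hs => ?_
  exact (differentiableAt_riemannZeta hs).continuousAt.continuousWithinAt

theorem weight1 (z : ℂ) (J : ℕ) (hJ : J ≤ 2) : ‖z ^ J‖ ^ 2 ≤ 1 + ‖z‖ ^ 4 := by
  rw [norm_pow]
  have hb : 0 ≤ ‖z‖ ^ 2 := by positivity
  interval_cases J
  · simp
  · nlinarith [sq_nonneg (‖z‖ ^ 2 - 1)]
  · nlinarith [sq_nonneg (‖z‖ ^ 2)]

theorem weight2 (z s : ℂ) (J : ℕ) (hJ : J ≤ 2) (l : ℝ) (hl : 1 ≤ l) :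
    ‖z ^ J - s ^ J‖ ^ 2 ≤ 6 * l * ‖z - s‖ ^ 4 + 4 / l * (1 + ‖z‖ ^ 4) := by
  have hl0 : 0 < l := by linarith
  have hab : ∀ a b : ℝ, 2 * (a * b) ≤ l * a ^ 2 + b ^ 2 / l := by
    intro a b
    have h1 : 0 ≤ (l * a - b) ^ 2 / l := by positivity
    have h2 : (l * a - b) ^ 2 / l = l * a ^ 2 - 2 * (a * b) + b ^ 2 / l := by
      field_simp
      ring
    linarith
  obtain ⟨a, ha⟩ : ∃ a : ℝ, a = ‖z - s‖ ^ 2 := ⟨_, rfl⟩
  obtain ⟨b, hb⟩ : ∃ b : ℝ, b = ‖z‖ ^ 2 := ⟨_, rfl⟩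
  have ha0 : 0 ≤ a := by rw [ha]; positivity
  have hb0 : 0 ≤ b := by rw [hb]; positivity
  have ha4 : ‖z - s‖ ^ 4 = a ^ 2 := by rw [ha]; ring
  have hb4 : ‖z‖ ^ 4 = b ^ 2 := by rw [hb]; ring
  rw [ha4, hb4]
  have hli : 0 < 1 / l := by positivity
  have e : 4 / l * (1 + b ^ 2) = 4 * (1 / l) + 4 * (b ^ 2 / l) := by ring
  rw [e]
  have hbl : 0 ≤ b ^ 2 / l := by positivity
  have hla : 0 ≤ l * a ^ 2 := by positivity
  interval_cases J
  · simp
    positivity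
  · simp only [pow_one]
    rw [← ha]
    have := hab a 1
    have h3 : (1 : ℝ) ^ 2 / l = 1 / l := by rw [one_pow]
    rw [h3] at this
    nlinarith
  · have h3 : z ^ 2 - s ^ 2 = (z - s) * (z + s) := by ring
    rw [h3, norm_mul, mul_pow, ← ha]
    have h4 : ‖z + s‖ ≤ 2 * ‖z‖ + ‖z - s‖ := by
      have h5 : z + s = 2 * z - (z - s) := by ring
      rw [h5]
      refine (norm_sub_le _ _).trans ?_
      rw [norm_mul]
      simp
    have h6 : ‖z + s‖ ^ 2 ≤ 8 * b + 2 * a := by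
      rw [ha, hb]
      have h7 := norm_nonneg (z + s)
      nlinarith [sq_nonneg (2 * ‖z‖ - ‖z - s‖)]
    have h8 : a * ‖z + s‖ ^ 2 ≤ a * (8 * b + 2 * a) := mul_le_mul_of_nonneg_left h6 ha0
    have h9 := hab a b
    have h10 : a ^ 2 ≤ l * a ^ 2 := by nlinarith [sq_nonneg a]
    nlinarith

theorem enorm_pow_eq (z : ℂ) (n : ℕ) : ENNReal.ofReal (‖z‖ ^ n) = ‖z‖ₑ ^ n := by
  rw [ENNReal.ofReal_pow (norm_nonneg _), ofReal_norm]

theorem weight1' (z : ℂ) (J : ℕ) (hJ : J ≤ 2) : ‖z ^ J‖ₑ ^ 2 ≤ 1 + ‖z‖ₑ ^ 4 := by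
  have h := ENNReal.ofReal_le_ofReal (weight1 z J hJ)
  rwa [ENNReal.ofReal_add (by norm_num) (by positivity), enorm_pow_eq, enorm_pow_eq,
    ENNReal.ofReal_one] at h

theorem weight2' (z s : ℂ) (J : ℕ) (hJ : J ≤ 2) (l : ℝ) (hl : 1 ≤ l) :
    ‖z ^ J - s ^ J‖ₑ ^ 2 ≤ ENNReal.ofReal (6 * l) * ‖z - s‖ₑ ^ 4 +
      ENNReal.ofReal (4 / l) * (1 + ‖z‖ₑ ^ 4) := by
  have hl0 : 0 < l := by linarith
  have h := ENNReal.ofReal_le_ofReal (weight2 z s J hJ l hl)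
  rwa [ENNReal.ofReal_add (by positivity) (by positivity), ENNReal.ofReal_mul (by positivity),
    ENNReal.ofReal_mul (p := 4 / l) (by positivity),
    ENNReal.ofReal_add (p := 1) (by norm_num) (by positivity), enorm_pow_eq, enorm_pow_eq,
    enorm_pow_eq, ENNReal.ofReal_one] at h

/-- the moment of the polynomial -/
theorem momN (hLA : S_LA) (k : ℕ) (x : ℝ) (hx : 1 / 2 < x) (w : ℂ) (hw : x ≤ w.re) (N : ℕ) :
    ∫⁻ α in cube k, ‖DN N α w‖ₑ ^ 2 ≤ ENNReal.ofReal ((1 + 1 / (2 * x - 1)) ^ k) := by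
  have hx0 : 0 < 2 * x - 1 := by linarith
  obtain ⟨-, hA2, -⟩ := hLA w (by linarith)
  have hBle : 1 + 1 / (2 * w.re - 1) ≤ 1 + 1 / (2 * x - 1) := by
    have : 1 / (2 * w.re - 1) ≤ 1 / (2 * x - 1) := one_div_le_one_div_of_le hx0 (by linarith)
    linarith
  rw [cube_pi]
  refine le_trans (le_of_eq ?_) (lint_prod_le (volume.restrict (Ico (0 : ℝ) 1))
    (fun a => ‖SN N a w‖ₑ ^ 2) ((SN_meas1 N w).enorm.pow_const 2) (1 + 1 / (2 * x - 1))
    (by positivity) ((hA2 N).trans (ENNReal.ofReal_le_ofReal hBle)) k)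
  refine lintegral_congr fun α => ?_
  unfold DN
  rw [Finset.prod_pow, ← ofReal_norm, norm_prod,
    ENNReal.ofReal_prod_of_nonneg (fun i _ => norm_nonneg _)]
  simp only [ofReal_norm]

/-- the moment with zeros -/
theorem mom2 (hEZ : S_EZ) (hLA : S_LA) (J k : ℕ) (hJ : J ≤ 2) (x : ℝ) (hx : 1 / 2 < x) (w : ℂ)
    (hw : x ≤ w.re) (N : ℕ) (hN : 1 ≤ N) (l : ℝ) (hl : 1 ≤ l) (E₁ E₂ : ℝ)
    (hE₁ : (4 * (1 + 1 / (2 * x - 1))) ^ k * ((N : ℝ) ^ (1 - 2 * x) / (2 * x - 1)) ≤ E₁)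
    (hE₂ : (1 + 1 / (2 * x - 1)) ^ k ≤ E₂) :
    ∫⁻ α in cube k, ‖DZ (app J k α) w - DN N (app J k α) w‖ₑ ^ 2 ≤
      ENNReal.ofReal (2 * E₁ + 2 * E₂ * (4 / l)) * (1 + ‖riemannZeta w‖ₑ ^ 4) +
        ENNReal.ofReal (2 * E₂ * (6 * l)) * ‖riemannZeta w - SN N 0 w‖ₑ ^ 4 := by
  have hx0 : 0 < 2 * x - 1 := by linarith
  have hl0 : 0 < l := by linarith
  have hE₁0 : 0 ≤ E₁ := le_trans (by positivity) hE₁
  have hE₂0 : 0 ≤ E₂ := le_trans (by positivity) hE₂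
  set z := riemannZeta w with hz
  set s := SN N 0 w with hs
  have hp : ∀ α : Fin k → ℝ, ‖DZ (app J k α) w - DN N (app J k α) w‖ₑ ^ 2 ≤
      (2 * ‖z ^ J‖ₑ ^ 2) * ‖DZ α w - DN N α w‖ₑ ^ 2 + (2 * ‖z ^ J - s ^ J‖ₑ ^ 2) * ‖DN N α w‖ₑ ^ 2 := by
    intro α
    rw [DZ_app, DN_app, ← hz, ← hs]
    have e : z ^ J * DZ α w - s ^ J * DN N α w =
        z ^ J * (DZ α w - DN N α w) + (z ^ J - s ^ J) * DN N α w := by ring
    rw [e]
    refine (enorm_add_sq _ _).trans (le_of_eq ?_)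
    rw [enorm_mul, enorm_mul, mul_pow, mul_pow, mul_assoc, mul_assoc]
  have hmD : Measurable (fun α : Fin k → ℝ => (2 * ‖z ^ J - s ^ J‖ₑ ^ 2) * ‖DN N α w‖ₑ ^ 2) := by
    refine Measurable.const_mul (Measurable.pow_const (Measurable.enorm ?_) 2) _
    unfold DN
    refine Finset.measurable_prod _ (fun i _ => ?_)
    have h1 : Measurable (fun α : Fin k → ℝ => α i) := measurable_pi_apply i
    have h := (SN_meas1 N w).comp h1
    exact h
  have hc1 : 2 * ‖z ^ J‖ₑ ^ 2 ≠ ⊤ := by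
    rw [← enorm_pow_eq]
    exact ENNReal.mul_ne_top (by norm_num) ENNReal.ofReal_ne_top
  have hc2 : 2 * ‖z ^ J - s ^ J‖ₑ ^ 2 ≠ ⊤ := by
    rw [← enorm_pow_eq]
    exact ENNReal.mul_ne_top (by norm_num) ENNReal.ofReal_ne_top
  refine (lintegral_mono hp).trans ?_
  rw [lintegral_add_right _ hmD, lintegral_const_mul' _ _ hc1, lintegral_const_mul' _ _ hc2]
  have m1 := (mom hEZ hLA k x hx w hw N hN).trans (ENNReal.ofReal_le_ofReal hE₁)
  have m2 := (momN hLA k x hx w hw N).trans (ENNReal.ofReal_le_ofReal hE₂)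
  calc 2 * ‖z ^ J‖ₑ ^ 2 * (∫⁻ α in cube k, ‖DZ α w - DN N α w‖ₑ ^ 2) +
        2 * ‖z ^ J - s ^ J‖ₑ ^ 2 * (∫⁻ α in cube k, ‖DN N α w‖ₑ ^ 2)
      ≤ 2 * (1 + ‖z‖ₑ ^ 4) * ENNReal.ofReal E₁ + 2 * (ENNReal.ofReal (6 * l) * ‖z - s‖ₑ ^ 4 +
          ENNReal.ofReal (4 / l) * (1 + ‖z‖ₑ ^ 4)) * ENNReal.ofReal E₂ := by
        gcongr
        · exact weight1' z J hJ
        · exact weight2' z s J hJ l hl
    _ = _ := by
        rw [ENNReal.ofReal_add (by positivity) (by positivity),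
          ENNReal.ofReal_mul (p := 2) (by norm_num),
          ENNReal.ofReal_mul (p := 2 * E₂) (by positivity),
          ENNReal.ofReal_mul (p := 2 * E₂) (by positivity),
          ENNReal.ofReal_mul (p := 2) (by norm_num)]
        have h2 : ENNReal.ofReal 2 = 2 := by simp
        rw [h2]
        ring

/-- **(REM2)** -/
theorem t_REM2 : S_EZ → S_LA → S_Z7 → S_Z8 → S_REM2 := by
  intro hEZ hLA hZ7 hZ8 J k x₀ x₁ η hJ hx₀ hx hx₁ hη hη8
  obtain ⟨r, hr, hr1, hr2⟩ : ∃ r : ℝ, 0 < r ∧ 1 / 2 < x₀ - r ∧ x₁ + r < 1 := by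
    refine ⟨min ((x₀ - 1 / 2) / 2) ((1 - x₁) / 2), lt_min (by linarith) (by linarith), ?_, ?_⟩
    · have := min_le_left ((x₀ - 1 / 2) / 2) ((1 - x₁) / 2)
      linarith
    · have := min_le_right ((x₀ - 1 / 2) / 2) ((1 - x₁) / 2)
      linarith
  obtain ⟨x, hxd⟩ : ∃ x : ℝ, x = x₀ - r := ⟨_, rfl⟩
  have hx2 : 0 < 2 * x - 1 := by rw [hxd]; linarith
  have hx3 : 1 / 2 < x := by linarith
  obtain ⟨δ, C₈, hδ, hC₈, h8⟩ := hZ8 (x₀ - r) (x₁ + r) η hr1 (by linarith) hr2 hη hη8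
  obtain ⟨c₁, hc₁⟩ : ∃ c₁ : ℝ, c₁ = η * (2 * x - 1) := ⟨_, rfl⟩
  have hc₁0 : 0 < c₁ := by rw [hc₁]; positivity
  obtain ⟨c, hc, hcc₁, hcδ⟩ : ∃ c : ℝ, 0 < c ∧ 2 * c ≤ c₁ ∧ 2 * c ≤ δ / 2 := by
    refine ⟨min c₁ (δ / 2) / 2, by have := lt_min hc₁0 (half_pos hδ); linarith, ?_, ?_⟩
    · have := min_le_left c₁ (δ / 2)
      linarith
    · have := min_le_right c₁ (δ / 2)
      linarith
  obtain ⟨C₇, hC₇, h7⟩ := hZ7 (x₀ - r) (x₁ + r) c hr1 (by linarith) hr2 hc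
  obtain ⟨E, hE⟩ : ∃ E : ℝ, E = (4 * (1 + 1 / (2 * x - 1))) ^ k / (2 * x - 1) := ⟨_, rfl⟩
  have hE0 : 0 ≤ E := by rw [hE]; positivity
  obtain ⟨E₂, hE₂⟩ : ∃ E₂ : ℝ, E₂ = (1 + 1 / (2 * x - 1)) ^ k := ⟨_, rfl⟩
  have hE₂0 : 0 ≤ E₂ := by rw [hE₂]; positivity
  obtain ⟨K, hK⟩ : ∃ K : ℝ, K = ((2 * E + 8 * E₂) * (4 + C₇) + 12 * E₂ * C₈) * (x₁ - x₀ + 2 * r) :=
    ⟨_, rfl⟩
  have hxx : 0 ≤ x₁ - x₀ + 2 * r := by linarith
  have hK0 : 0 ≤ K := by rw [hK]; positivity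
  refine ⟨c / 2, by positivity, ?_⟩
  have main := ae_lines2 (volume.restrict (cube k))
    (fun (j : ℕ) (α : Fin k → ℝ) (v : ℂ) => DZ (app J k α) v - DN (NJ η j) (app J k α) v)
    J x₀ x₁ c (c / 2) r K hr1 hx hr2 hr (by positivity) hK0 ?_ ?_ ?_
  · filter_upwards [main] with α hα Y
    obtain ⟨C, hC, h⟩ := hα Y
    refine ⟨C, hC, fun j b hb => ?_⟩
    refine (h j b hb.1 hb.2.1 hb.2.2).trans (le_of_eq ?_)
    congr 2
    ring
  · filter_upwards [ae_pos' k] with α hα j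
    have hd1 : Differentiable ℂ (DZ α) := by
      unfold DZ
      exact Differentiable.fun_finsetProd fun i _ => expZeta_diff (hα i).1 (hα i).2
    have hd2 : Differentiable ℂ (DN (NJ η j) α) := by
      unfold DN
      exact Differentiable.fun_finsetProd fun i _ => SN_diff _ _
    have hd3 : Differentiable ℂ (SN (NJ η j) 0) := SN_diff _ _
    have hd4 := differentiable_riemannZeta₁
    refine ⟨fun w => riemannZeta₁ w ^ J * DZ α w - (w - 1) ^ J * (SN (NJ η j) 0 w ^ J *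
      DN (NJ η j) α w), ?_, fun w hw => ?_⟩
    · exact ((hd4.pow J).mul hd1).sub (((differentiable_id.sub_const 1).pow J).mul
        ((hd3.pow J).mul hd2))
    · have hw1 : w - 1 ≠ 0 := sub_ne_zero.2 hw
      have e : riemannZeta₁ w = (w - 1) * riemannZeta w := by
        rw [riemannZeta_eq_inv_sub_mul hw]
        field_simp
      simp only
      rw [DZ_app, DN_app, e, mul_pow]
      ring
  · intro j
    refine AEMeasurable.pow_const (AEMeasurable.enorm ?_) 2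
    have e : (fun p : (Fin k → ℝ) × (ℝ × ℝ) => DZ (app J k p.1) ((p.2.1 : ℂ) + p.2.2 * Complex.I) -
        DN (NJ η j) (app J k p.1) ((p.2.1 : ℂ) + p.2.2 * Complex.I)) =
        fun p : (Fin k → ℝ) × (ℝ × ℝ) => riemannZeta ((p.2.1 : ℂ) + p.2.2 * Complex.I) ^ J *
          (∏ i ∈ Finset.univ, HurwitzZeta.expZeta (p.1 i : UnitAddCircle)
            ((p.2.1 : ℂ) + p.2.2 * Complex.I)) -
          SN (NJ η j) 0 ((p.2.1 : ℂ) + p.2.2 * Complex.I) ^ J *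
          ∏ i, SN (NJ η j) (p.1 i) ((p.2.1 : ℂ) + p.2.2 * Complex.I) := by
      funext p
      rw [DZ_app, DN_app]
      rfl
    rw [e]
    have hw : Measurable (fun p : (Fin k → ℝ) × (ℝ × ℝ) => (p.2.1 : ℂ) + p.2.2 * Complex.I) := by
      fun_prop
    have m1 : Measurable (fun p : (Fin k → ℝ) × (ℝ × ℝ) =>
        riemannZeta ((p.2.1 : ℂ) + p.2.2 * Complex.I)) := zeta_meas.comp hw
    have m2 : Measurable (fun p : (Fin k → ℝ) × (ℝ × ℝ) =>
        SN (NJ η j) 0 ((p.2.1 : ℂ) + p.2.2 * Complex.I)) :=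
      (SN_diff (NJ η j) 0).continuous.measurable.comp hw
    have m3 : Measurable (fun p : (Fin k → ℝ) × (ℝ × ℝ) =>
        ∏ i, SN (NJ η j) (p.1 i) ((p.2.1 : ℂ) + p.2.2 * Complex.I)) :=
      Finset.measurable_prod _ (fun i _ => SN_meas2 k _ i)
    exact ((m1.pow_const J).aemeasurable.mul (jm hEZ k Finset.univ)).sub
      ((m2.pow_const J).mul m3).aemeasurable
  · intro j
    obtain ⟨N, hN⟩ : ∃ N : ℕ, N = NJ η j := ⟨_, rfl⟩
    have hN1 : 1 ≤ N := by rw [hN]; exact NJ_pos η j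
    obtain ⟨l, hl⟩ : ∃ l : ℝ, l = (2 : ℝ) ^ (j * (δ / 2)) := ⟨_, rfl⟩
    have hl1 : 1 ≤ l := by
      rw [hl]
      exact Real.one_le_rpow (by norm_num) (by positivity)
    have hl0 : 0 < l := by linarith
    set E₁ : ℝ := E * (2 : ℝ) ^ (-c₁ * j) with hE₁
    have hE₁0 : 0 ≤ E₁ := by positivity
    have hE₁le : (4 * (1 + 1 / (2 * x - 1))) ^ k * ((N : ℝ) ^ (1 - 2 * x) / (2 * x - 1)) ≤ E₁ := by
      have h1 : (N : ℝ) ^ (1 - 2 * x) ≤ (2 : ℝ) ^ (-c₁ * j) := by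
        calc (N : ℝ) ^ (1 - 2 * x) ≤ ((2 : ℝ) ^ (η * j)) ^ (1 - 2 * x) := by
              rw [hN]
              exact Real.rpow_le_rpow_of_nonpos (by positivity) (NJ_ge η j) (by linarith)
          _ = (2 : ℝ) ^ (-c₁ * j) := by
              rw [← Real.rpow_mul (by norm_num)]
              congr 1
              rw [hc₁]
              ring
      calc (4 * (1 + 1 / (2 * x - 1))) ^ k * ((N : ℝ) ^ (1 - 2 * x) / (2 * x - 1))
          ≤ (4 * (1 + 1 / (2 * x - 1))) ^ k * ((2 : ℝ) ^ (-c₁ * j) / (2 * x - 1)) := by gcongr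
        _ = E₁ := by rw [hE₁, hE]; ring
    set A : ℝ := 2 * E₁ + 2 * E₂ * (4 / l) with hA
    set Bq : ℝ := 2 * E₂ * (6 * l) with hBq
    have hA0 : 0 ≤ A := by positivity
    have hBq0 : 0 ≤ Bq := by positivity
    set I : Set ℝ := Icc (x₀ - r) (x₁ + r) with hI
    set W : Set ℝ := Icc ((2 : ℝ) ^ j / 2) (4 * 2 ^ j) with hW
    set G : ℝ × ℝ → ℝ≥0∞ := fun p =>
      ENNReal.ofReal A * (1 + ‖riemannZeta (p.1 + p.2 * Complex.I)‖ₑ ^ 4) +
        ENNReal.ofReal Bq * ‖riemannZeta (p.1 + p.2 * Complex.I) -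
          SN N 0 (p.1 + p.2 * Complex.I)‖ₑ ^ 4 with hG
    have hw : Measurable (fun p : ℝ × ℝ => (p.1 : ℂ) + p.2 * Complex.I) := by fun_prop
    have mz : Measurable (fun p : ℝ × ℝ => riemannZeta (p.1 + p.2 * Complex.I)) :=
      zeta_meas.comp hw
    have ms : Measurable (fun p : ℝ × ℝ => SN N 0 (p.1 + p.2 * Complex.I)) :=
      (SN_diff N 0).continuous.measurable.comp hw
    have mg1 : Measurable (fun p : ℝ × ℝ =>
        ENNReal.ofReal A * (1 + ‖riemannZeta (p.1 + p.2 * Complex.I)‖ₑ ^ 4)) :=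
      ((mz.enorm.pow_const 4).const_add 1).const_mul _
    have mG : Measurable G :=
      mg1.add (((mz.sub ms).enorm.pow_const 4).const_mul _)
    have hIWm : MeasurableSet (I ×ˢ W) := measurableSet_Icc.prod measurableSet_Icc
    have hstep : ∀ p ∈ I ×ˢ W, ∫⁻ α in cube k, ‖DZ (app J k α) ((p : ℝ × ℝ).1 + p.2 * Complex.I) -
        DN (NJ η j) (app J k α) (p.1 + p.2 * Complex.I)‖ₑ ^ 2 ≤ G p := by
      intro p hp
      have e : ((p.1 : ℂ) + p.2 * Complex.I).re = p.1 := by simp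
      have hpx : x ≤ ((p.1 : ℂ) + p.2 * Complex.I).re := by
        rw [e, hxd]
        exact hp.1.1
      rw [← hN]
      exact mom2 hEZ hLA J k hJ x hx3 _ hpx N hN1 l hl1 E₁ E₂ hE₁le (by rw [hE₂])
    refine (setLIntegral_mono' hIWm hstep).trans ?_
    rw [Measure.volume_eq_prod, ← Measure.prod_restrict, lintegral_prod _ mG.aemeasurable]
    -- the inner integral
    obtain ⟨M, hM⟩ : ∃ M : ℝ, M = A * (4 * 2 ^ j + C₇ * (2 : ℝ) ^ (j * (1 + c))) +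
        Bq * (C₈ * (2 : ℝ) ^ (j * (1 - δ))) := ⟨_, rfl⟩
    have hin : ∀ y ∈ I, ∫⁻ t in W, G (y, t) ≤ ENNReal.ofReal M := by
      intro y hy
      have hy7 := h7 j y hy.1 hy.2
      have hy8 := h8 j y hy.1 hy.2
      rw [← hN] at hy8
      have mz1 : Measurable (fun t : ℝ => riemannZeta (y + t * Complex.I)) :=
        mz.comp (measurable_const.prodMk measurable_id)
      have mg2 : Measurable (fun t : ℝ =>
          ENNReal.ofReal A * (1 + ‖riemannZeta (y + t * Complex.I)‖ₑ ^ 4)) :=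
        ((mz1.enorm.pow_const 4).const_add 1).const_mul _
      have hvol : volume W ≤ ENNReal.ofReal (4 * 2 ^ j) := by
        rw [hW, Real.volume_Icc]
        apply ENNReal.ofReal_le_ofReal
        have : (0 : ℝ) < 2 ^ j := by positivity
        linarith
      rw [hG]
      simp only
      rw [lintegral_add_left mg2, lintegral_const_mul' _ _ ENNReal.ofReal_ne_top,
        lintegral_const_mul' _ _ ENNReal.ofReal_ne_top, lintegral_add_left measurable_const,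
        setLIntegral_const, one_mul]
      calc ENNReal.ofReal A * (volume W + ∫⁻ t in W, ‖riemannZeta (y + t * Complex.I)‖ₑ ^ 4) +
            ENNReal.ofReal Bq * ∫⁻ t in W, ‖riemannZeta (y + t * Complex.I) -
              SN N 0 (y + t * Complex.I)‖ₑ ^ 4
          ≤ ENNReal.ofReal A * (ENNReal.ofReal (4 * 2 ^ j) +
              ENNReal.ofReal (C₇ * (2 : ℝ) ^ (j * (1 + c)))) +
            ENNReal.ofReal Bq * ENNReal.ofReal (C₈ * (2 : ℝ) ^ (j * (1 - δ))) := by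
            gcongr
        _ = ENNReal.ofReal M := by
            rw [hM, ENNReal.ofReal_add (p := A * (4 * 2 ^ j + C₇ * (2 : ℝ) ^ (j * (1 + c))))
                (by positivity) (by positivity),
              ENNReal.ofReal_mul (p := A) hA0, ENNReal.ofReal_mul (p := Bq) hBq0,
              ENNReal.ofReal_add (p := 4 * 2 ^ j) (by positivity) (by positivity)]
    refine (setLIntegral_mono' measurableSet_Icc hin).trans ?_
    rw [setLIntegral_const, Real.volume_Icc]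
    have hM0 : 0 ≤ M := by rw [hM]; positivity
    rw [← ENNReal.ofReal_mul hM0]
    apply ENNReal.ofReal_le_ofReal
    have hj0 : (0 : ℝ) ≤ j := Nat.cast_nonneg j
    -- the arithmetic
    have hq1 : E₁ ≤ E * (2 : ℝ) ^ (-(2 * c) * j) := by
      rw [hE₁]
      refine mul_le_mul_of_nonneg_left ?_ hE0
      exact Real.rpow_le_rpow_of_exponent_le (by norm_num) (by nlinarith)
    have hq2 : 1 / l ≤ (2 : ℝ) ^ (-(2 * c) * j) := by
      rw [hl, one_div, ← Real.rpow_neg (by norm_num)]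
      exact Real.rpow_le_rpow_of_exponent_le (by norm_num) (by nlinarith)
    have hq3 : A ≤ (2 * E + 8 * E₂) * (2 : ℝ) ^ (-(2 * c) * j) := by
      have e : A = 2 * E₁ + 8 * E₂ * (1 / l) := by rw [hA]; ring
      rw [e]
      have h1 : 8 * E₂ * (1 / l) ≤ 8 * E₂ * (2 : ℝ) ^ (-(2 * c) * j) :=
        mul_le_mul_of_nonneg_left hq2 (by positivity)
      nlinarith
    have hq4 : (4 : ℝ) * 2 ^ j ≤ 4 * (2 : ℝ) ^ (j * (1 + c)) := by
      refine mul_le_mul_of_nonneg_left ?_ (by norm_num)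
      rw [← Real.rpow_natCast]
      exact Real.rpow_le_rpow_of_exponent_le (by norm_num) (by nlinarith)
    have hq5 : (2 : ℝ) ^ (-(2 * c) * j) * (2 : ℝ) ^ (j * (1 + c)) = (2 : ℝ) ^ (j * (1 - c)) := by
      rw [← Real.rpow_add (by norm_num)]
      congr 1
      ring
    have hq6 : l * (2 : ℝ) ^ (j * (1 - δ)) ≤ (2 : ℝ) ^ (j * (1 - c)) := by
      rw [hl, ← Real.rpow_add (by norm_num)]
      exact Real.rpow_le_rpow_of_exponent_le (by norm_num) (by nlinarith)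
    have hq7 : A * (4 * 2 ^ j + C₇ * (2 : ℝ) ^ (j * (1 + c))) ≤
        (2 * E + 8 * E₂) * (4 + C₇) * (2 : ℝ) ^ (j * (1 - c)) := by
      calc A * (4 * 2 ^ j + C₇ * (2 : ℝ) ^ (j * (1 + c)))
          ≤ ((2 * E + 8 * E₂) * (2 : ℝ) ^ (-(2 * c) * j)) *
            (4 * (2 : ℝ) ^ (j * (1 + c)) + C₇ * (2 : ℝ) ^ (j * (1 + c))) :=
            mul_le_mul hq3 (by linarith) (by positivity) (by positivity)
        _ = (2 * E + 8 * E₂) * (4 + C₇) *
            ((2 : ℝ) ^ (-(2 * c) * j) * (2 : ℝ) ^ (j * (1 + c))) := by ring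
        _ = _ := by rw [hq5]
    have hq8 : Bq * (C₈ * (2 : ℝ) ^ (j * (1 - δ))) ≤ 12 * E₂ * C₈ * (2 : ℝ) ^ (j * (1 - c)) := by
      calc Bq * (C₈ * (2 : ℝ) ^ (j * (1 - δ))) = 12 * E₂ * C₈ * (l * (2 : ℝ) ^ (j * (1 - δ))) := by
            rw [hBq]; ring
        _ ≤ _ := mul_le_mul_of_nonneg_left hq6 (by positivity)
    have hML : M ≤ ((2 * E + 8 * E₂) * (4 + C₇) + 12 * E₂ * C₈) * (2 : ℝ) ^ (j * (1 - c)) := by
      rw [hM]
      linarith
    calc M * (x₁ + r - (x₀ - r)) = M * (x₁ - x₀ + 2 * r) := by ring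
      _ ≤ (((2 * E + 8 * E₂) * (4 + C₇) + 12 * E₂ * C₈) * (2 : ℝ) ^ (j * (1 - c))) *
          (x₁ - x₀ + 2 * r) := mul_le_mul_of_nonneg_right hML hxx
      _ = K * (2 : ℝ) ^ (j * (1 - c)) := by rw [hK]; ring

end

end Pool.Agent.J4H6.GS6
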